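import Pool.Agent.V11196.TP.Body

/-!
# MP_26b77b_gt : the iteration of perimeter-maximising triangles need not converge

`IsDiffConvexCurve C` : `C` is the boundary of a compact convex set with nonempty interior, with a
unique supporting line at each of its points.  `IsIteration C X Y Z` : `(X i, Y i, Z i)` is an
admissible sequence of the iteration (start from a nondegenerate inscribed triangle, move one
vertex at a time in the order `Z, Y, X`, each time to a perimeter-maximising point of `C`).

There are a curve `C` and an admissible sequence for which none of the three vertex sequences
converges (the triangles alternate between two mirror-image triangles).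
-/

namespace Pool.Agent.Results.MP_26b77b_gt.NoConvergence

open Pool.Agent.V11196.TP

theorem result : ∃ C : Set Plane, IsDiffConvexCurve C ∧ ∃ X Y Z : ℕ → Plane,
    IsIteration C X Y Z ∧ ¬ Converges X ∧ ¬ Converges Y ∧ ¬ Converges Z :=
  ⟨frontier body, curve_ok, _, _, _, iteration_ok, not_conv _ _ (P_ne3 0),
    not_conv _ _ (fun h => P_ne3 2 h.symm), not_conv _ _ (fun h => P_ne3 1 h.symm)⟩

end Pool.Agent.Results.MP_26b77b_gt.NoConvergence
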